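import Mathlib

open MeasureTheory Set Filter Topology Metric
open scoped ENNReal

namespace Pool.Agent.Results.MP_662df3_gt.Counter

/-- boundary measure: liminf as r tends to 0+ of (mu(A_r) - mu(A))/r -/
noncomputable def bdry {X : Type} [PseudoMetricSpace X] [MeasurableSpace X] (μ : Measure X)
    (A : Set X) : ℝ≥0∞ :=
  liminf (fun r : ℝ => (μ (thickening r A) - μ A) / ENNReal.ofReal r) (𝓝[>] 0)

/-- isoperimetric profile -/
noncomputable def profile {X : Type} [PseudoMetricSpace X] [MeasurableSpace X] (μ : Measure X)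
    (a : ℝ) : ℝ≥0∞ :=
  ⨅ (A : Set X) (_ : MeasurableSet A) (_ : μ A = ENNReal.ofReal a), bdry μ A

/-- R(a) = I(a)/a -/
noncomputable def ratio {X : Type} [PseudoMetricSpace X] [MeasurableSpace X] (μ : Measure X)
    (a : ℝ) : ℝ≥0∞ :=
  profile μ a / ENNReal.ofReal a

/-- density exp(-V), V convex on its (convex) domain of finiteness S, density 0 off S -/
def LogConcave (μ : Measure ℝ) : Prop :=
  ∃ (S : Set ℝ) (V : ℝ → ℝ), ConvexOn ℝ S V ∧
    μ = volume.withDensity (S.indicator fun x => ENNReal.ofReal (Real.exp (-V x)))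

def Symm (μ : Measure ℝ) : Prop := ∀ A : Set ℝ, MeasurableSet A → μ (-A) = μ A

/-- product measure on the Euclidean plane -/
noncomputable def prod2 (μ ν : Measure ℝ) : Measure (WithLp 2 (ℝ × ℝ)) :=
  (μ.prod ν).map (WithLp.toLp 2)

noncomputable def dens (x : ℝ) : ℝ≥0∞ := ENNReal.ofReal (Real.exp (-|x|) / 2)

noncomputable def lap : Measure ℝ := volume.withDensity dens

lemma dens_meas : Measurable dens := by unfold dens; fun_prop

lemma lap_lc : LogConcave lap := by
  refine ⟨univ, fun x => |x| + Real.log 2, ?_, ?_⟩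
  · refine ConvexOn.add_const ?_ _
    exact (convexOn_univ_norm (E := ℝ))
  · unfold lap
    congr 1
    ext x
    simp only [indicator_univ, dens]
    congr 1
    rw [neg_add, Real.exp_add, Real.exp_neg (Real.log 2), Real.exp_log (by norm_num)]
    ring

lemma lap_symm : Symm lap := by
  intro A hA
  unfold lap
  rw [withDensity_apply _ hA, withDensity_apply _ hA.neg, ← lintegral_indicator hA,
    ← lintegral_indicator hA.neg, ← lintegral_neg_eq_self]
  congr 1
  ext x
  by_cases h : x ∈ A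
  · have : -x ∈ -A := by simpa using h
    simp [indicator, h, dens]
  · simp [indicator, h]

lemma lap_Iic {s : ℝ} (hs : s ≤ 0) : lap (Iic s) = ENNReal.ofReal (Real.exp s / 2) := by
  unfold lap
  rw [withDensity_apply _ measurableSet_Iic]
  have h1 : ∫⁻ x in Iic s, dens x = ∫⁻ x in Iic s, ENNReal.ofReal (Real.exp x / 2) := by
    refine setLIntegral_congr_fun measurableSet_Iic fun x hx => ?_
    have : x ≤ 0 := le_trans hx hs
    simp only [dens, abs_of_nonpos this, neg_neg]
  rw [h1, ← ofReal_integral_eq_lintegral_ofReal]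
  · rw [integral_div, integral_exp_Iic]
  · exact (integrableOn_exp_Iic s).div_const 2
  · exact Eventually.of_forall fun x => by positivity

lemma lap_Ici {s : ℝ} (hs : 0 ≤ s) : lap (Ici s) = ENNReal.ofReal (Real.exp (-s) / 2) := by
  rw [← lap_symm _ measurableSet_Ici, neg_Ici, lap_Iic (by linarith)]

instance : NullSingletonClass lap := by unfold lap; infer_instance

instance lap_prob : IsProbabilityMeasure lap := by
  constructor
  rw [← Iic_union_Ioi (a := (0:ℝ)), measure_union (Iic_disjoint_Ioi le_rfl) measurableSet_Ioi,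
    measure_congr Ioi_ae_eq_Ici, lap_Iic le_rfl, lap_Ici le_rfl,
    ← ENNReal.ofReal_add (by positivity) (by positivity)]
  norm_num

lemma lap_Ioo (y u r : ℝ) (hr : 0 ≤ r) (h : ∀ x ∈ Ioo u (u + r), |x| ≤ |y| + r) :
    ENNReal.ofReal (r * Real.exp (-r)) * ENNReal.ofReal (Real.exp (-|y|) / 2) ≤
      lap (Ioo u (u + r)) := by
  unfold lap
  rw [withDensity_apply _ measurableSet_Ioo, ← ENNReal.ofReal_mul (by positivity)]
  calc _ = ∫⁻ _ in Ioo u (u + r), ENNReal.ofReal (Real.exp (-(|y| + r)) / 2) := by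
        rw [setLIntegral_const, Real.volume_Ioo, ← ENNReal.ofReal_mul (by positivity)]
        congr 1
        rw [neg_add, Real.exp_add]; ring
    _ ≤ _ := by
        refine setLIntegral_mono' measurableSet_Ioo fun x hx => ?_
        unfold dens
        have := h x hx
        gcongr

lemma left (C : Set ℝ) (x0 r : ℝ) (hr : 0 < r) (hx : x0 ≤ r) (hC : ∀ c ∈ C, r ≤ |c - x0|) :
    ENNReal.ofReal (r * Real.exp (-r)) * lap (C ∩ Iic x0) ≤
      lap ((thickening r C \ C) ∩ Iio x0) := by
  rcases (C ∩ Iic x0).eq_empty_or_nonempty with h | h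
  · simp [h]
  have hb : BddAbove (C ∩ Iic x0) := ⟨x0, fun _ hc => hc.2⟩
  set p := sSup (C ∩ Iic x0) with hp
  have hp1 : p ≤ x0 - r := csSup_le h fun c hc => by
    have := hC c hc.1
    have h2 : c ≤ x0 := hc.2
    rw [abs_of_nonpos (by linarith)] at this
    linarith
  have hp0 : p ≤ 0 := by linarith
  have h1 : lap (C ∩ Iic x0) ≤ ENNReal.ofReal (Real.exp (-|p|) / 2) := by
    rw [abs_of_nonpos hp0, neg_neg, ← lap_Iic hp0]
    exact measure_mono fun c hc => le_csSup hb hc
  refine le_trans (by gcongr) ((lap_Ioo p p r hr.le fun x hx => ?_).trans (measure_mono ?_))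
  · rw [abs_le]; constructor
    · have := neg_abs_le p; linarith [hx.1]
    · have := le_abs_self p; linarith [hx.2]
  · intro y hy
    have hyx : y < x0 := by linarith [hy.2]
    refine ⟨⟨?_, fun hyC => ?_⟩, hyx⟩
    · obtain ⟨c, hc, hc2⟩ := exists_lt_of_lt_csSup h (show y - r < p by linarith [hy.2])
      have : c ≤ p := le_csSup hb hc
      refine mem_thickening_iff.2 ⟨c, hc.1, ?_⟩
      rw [Real.dist_eq, abs_lt]; constructor <;> linarith [hy.1]
    · have : y ≤ p := le_csSup hb ⟨hyC, hyx.le⟩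
      linarith [hy.1]

lemma right (C : Set ℝ) (x0 r : ℝ) (hr : 0 < r) (hx : -r ≤ x0) (hC : ∀ c ∈ C, r ≤ |c - x0|) :
    ENNReal.ofReal (r * Real.exp (-r)) * lap (C ∩ Ici x0) ≤
      lap ((thickening r C \ C) ∩ Ioi x0) := by
  rcases (C ∩ Ici x0).eq_empty_or_nonempty with h | h
  · simp [h]
  have hb : BddBelow (C ∩ Ici x0) := ⟨x0, fun _ hc => hc.2⟩
  set p := sInf (C ∩ Ici x0) with hp
  have hp1 : x0 + r ≤ p := le_csInf h fun c hc => by
    have := hC c hc.1
    have h2 : x0 ≤ c := hc.2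
    rw [abs_of_nonneg (by linarith)] at this
    linarith
  have hp0 : 0 ≤ p := by linarith
  have h1 : lap (C ∩ Ici x0) ≤ ENNReal.ofReal (Real.exp (-|p|) / 2) := by
    rw [abs_of_nonneg hp0, ← lap_Ici hp0]
    exact measure_mono fun c hc => csInf_le hb hc
  refine le_trans (by gcongr)
    ((lap_Ioo p (p - r) r hr.le fun x hx => ?_).trans (measure_mono ?_))
  · rw [abs_le]; constructor
    · have := neg_abs_le p; linarith [hx.1]
    · have := le_abs_self p; linarith [hx.2]
  · intro y hy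
    have hyx : x0 < y := by linarith [hy.1]
    refine ⟨⟨?_, fun hyC => ?_⟩, hyx⟩
    · obtain ⟨c, hc, hc2⟩ := exists_lt_of_csInf_lt h (show p < y + r by linarith [hy.1])
      have : p ≤ c := csInf_le hb hc
      refine mem_thickening_iff.2 ⟨c, hc.1, ?_⟩
      rw [Real.dist_eq, abs_lt]; constructor <;> linarith [hy.2]
    · have : p ≤ y := csInf_le hb ⟨hyC, hyx.le⟩
      linarith [hy.2]

lemma both (C : Set ℝ) (hm : MeasurableSet C) (x0 r : ℝ) (hr : 0 < r) (hx : |x0| ≤ r)
    (hC : ∀ c ∈ C, r ≤ |c - x0|) :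
    ENNReal.ofReal (r * Real.exp (-r)) * lap C ≤ lap (thickening r C \ C) := by
  have hm2 : MeasurableSet (thickening r C \ C) := isOpen_thickening.measurableSet.diff hm
  have h1 : lap C ≤ lap (C ∩ Iic x0) + lap (C ∩ Ici x0) := by
    refine le_trans (measure_mono ?_) (measure_union_le _ _)
    intro c hc
    rcases le_total c x0 with h | h
    · exact Or.inl ⟨hc, h⟩
    · exact Or.inr ⟨hc, h⟩
  have h2 := left C x0 r hr (abs_le.1 hx).2 hC
  have h3 := right C x0 r hr (abs_le.1 hx).1 hC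
  calc _ ≤ ENNReal.ofReal (r * Real.exp (-r)) * (lap (C ∩ Iic x0) + lap (C ∩ Ici x0)) := by
        gcongr
    _ ≤ lap ((thickening r C \ C) ∩ Iio x0) + lap ((thickening r C \ C) ∩ Ioi x0) := by
        rw [mul_add]; gcongr
    _ = lap ((thickening r C \ C) ∩ Iio x0 ∪ (thickening r C \ C) ∩ Ioi x0) := by
        rw [measure_union _ (hm2.inter measurableSet_Ioi)]
        exact Set.disjoint_left.2 fun y h1 h2 => lt_asymm (show y < x0 from h1.2) h2.2
    _ ≤ _ := measure_mono (union_subset inter_subset_left inter_subset_left)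

lemma step (A : Set ℝ) (hm : MeasurableSet A) (t r : ℝ) (ht : 0 < t) (ht2 : t ≤ 1 / 2)
    (hA : lap A = ENNReal.ofReal t) (hr : 0 < r) :
    ENNReal.ofReal (Real.exp (-r) / (1 + r) * t) ≤
      (lap (thickening r A) - lap A) / ENNReal.ofReal r := by
  have hsub := self_subset_thickening hr A
  rw [← measure_sdiff hsub hm.nullMeasurableSet (measure_ne_top _ _),
    ENNReal.le_div_iff_mul_le (Or.inl (by simpa using hr)) (Or.inl ENNReal.ofReal_ne_top),
    ← ENNReal.ofReal_mul (by positivity)]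
  have he : Real.exp (-r) ≤ 1 := Real.exp_le_one_iff.2 (by linarith)
  have hep := Real.exp_pos (-r)
  set D := lap (thickening r A \ A) with hD
  have hDt : D ≠ ⊤ := measure_ne_top _ _
  rw [ENNReal.ofReal_le_iff_le_toReal hDt]
  have hD0 : 0 ≤ D.toReal := ENNReal.toReal_nonneg
  have key : r * Real.exp (-r) * t ≤ D.toReal * (1 + r) := by
    by_cases h0 : (0:ℝ) ∈ thickening r A
    · obtain ⟨x0, hx0, hd⟩ := mem_thickening_iff.1 h0
      have hb := both (thickening r A)ᶜ isOpen_thickening.measurableSet.compl x0 r hr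
        (by rw [dist_comm, Real.dist_eq, sub_zero] at hd; exact hd.le) (fun c hc => by
          by_contra hlt
          exact hc (mem_thickening_iff.2 ⟨x0, hx0, by rw [Real.dist_eq]; linarith⟩))
      have h2 : lap (thickening r (thickening r A)ᶜ \ (thickening r A)ᶜ) ≤ D := by
        refine measure_mono fun y hy => ⟨not_not.1 hy.2, fun hyA => ?_⟩
        obtain ⟨z, hz, hzd⟩ := mem_thickening_iff.1 hy.1
        exact hz (mem_thickening_iff.2 ⟨y, hyA, by rwa [dist_comm]⟩)
      have h3 : lap (thickening r A) = ENNReal.ofReal t + D := by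
        rw [← hA, hD, measure_add_sdiff hm.nullMeasurableSet, union_eq_self_of_subset_left hsub]
      have h4 := hb.trans h2
      rw [prob_compl_eq_one_sub isOpen_thickening.measurableSet, h3] at h4
      have h5 := ENNReal.toReal_mono hDt h4
      have h6 : ENNReal.ofReal t + D ≤ 1 := h3 ▸ prob_le_one
      rw [ENNReal.toReal_mul, ENNReal.toReal_ofReal (by positivity),
        ENNReal.toReal_sub_of_le h6 ENNReal.one_ne_top,
        ENNReal.toReal_add ENNReal.ofReal_ne_top hDt, ENNReal.toReal_ofReal ht.le,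
        ENNReal.toReal_one] at h5
      have h7 : r * Real.exp (-r) * D.toReal ≤ r * D.toReal := by
        have : r * Real.exp (-r) ≤ r := by nlinarith
        gcongr
      have h8 : r * Real.exp (-r) * t ≤ r * Real.exp (-r) * (1 - t) := by
        gcongr; linarith
      nlinarith
    · have hb := both A hm 0 r hr (by simpa using hr.le) (fun c hc => by
        by_contra hlt
        exact h0 (mem_thickening_iff.2 ⟨c, hc, by rw [dist_comm, Real.dist_eq]; linarith⟩))
      rw [hA, ← ENNReal.ofReal_mul (by positivity), ENNReal.ofReal_le_iff_le_toReal hDt] at hb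
      nlinarith
  rw [div_mul_eq_mul_div, div_mul_eq_mul_div, div_le_iff₀ (by positivity)]
  linarith

lemma ratio_ge {t : ℝ} (ht : 0 < t) (ht2 : t ≤ 1 / 2) : 1 ≤ ratio lap t := by
  unfold ratio
  rw [ENNReal.le_div_iff_mul_le (Or.inl (by simpa using ht)) (Or.inl ENNReal.ofReal_ne_top),
    one_mul]
  refine le_iInf fun A => le_iInf fun hm => le_iInf fun hA => ?_
  have h1 : Tendsto (fun r : ℝ => ENNReal.ofReal (Real.exp (-r) / (1 + r) * t)) (𝓝[>] 0)
      (𝓝 (ENNReal.ofReal t)) := by
    refine (ENNReal.continuous_ofReal.tendsto t).comp (tendsto_nhdsWithin_of_tendsto_nhds ?_)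
    have : ContinuousAt (fun r : ℝ => Real.exp (-r) / (1 + r) * t) 0 := by
      fun_prop (disch := norm_num)
    simpa using this.tendsto
  rw [← h1.liminf_eq]
  refine liminf_le_liminf ?_
  filter_upwards [self_mem_nhdsWithin] with r hr using step A hm t r ht ht2 hA hr

/-- the union of two half-planes -/
def Q (u : ℝ) : Set (WithLp 2 (ℝ × ℝ)) := {z | z.fst ≤ u ∨ z.snd ≤ u}

lemma Q_meas (u : ℝ) : MeasurableSet (Q u) := by
  have h1 : IsClosed {z : WithLp 2 (ℝ × ℝ) | z.fst ≤ u} :=
    isClosed_le (WithLp.continuous_fst 2 ℝ ℝ) continuous_const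
  have h2 : IsClosed {z : WithLp 2 (ℝ × ℝ) | z.snd ≤ u} :=
    isClosed_le (WithLp.continuous_snd 2 ℝ ℝ) continuous_const
  exact (h1.union h2).measurableSet

lemma Q_val {u : ℝ} (hu : u ≤ 0) :
    prod2 lap lap (Q u) = ENNReal.ofReal (1 - (1 - Real.exp u / 2) ^ 2) := by
  unfold prod2
  rw [Measure.map_apply (WithLp.measurable_toLp _ _) (Q_meas u)]
  have h : WithLp.toLp 2 ⁻¹' Q u = ((Iic u)ᶜ ×ˢ (Iic u)ᶜ)ᶜ := by
    ext z
    simp only [Q, mem_preimage, mem_compl_iff, mem_prod, mem_Iic, Set.mem_ofPred_eq,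
      WithLp.toLp_fst, WithLp.toLp_snd]
    tauto
  have he : Real.exp u ≤ 1 := Real.exp_le_one_iff.2 hu
  have hp := Real.exp_pos u
  rw [h, prob_compl_eq_one_sub (measurableSet_Iic.compl.prod measurableSet_Iic.compl),
    Measure.prod_prod, prob_compl_eq_one_sub measurableSet_Iic, lap_Iic hu,
    ← ENNReal.ofReal_one, ← ENNReal.ofReal_sub _ (by positivity),
    ← ENNReal.ofReal_mul (by linarith), ← ENNReal.ofReal_sub _ (by nlinarith), sq]

lemma Q_thick (u r : ℝ) : thickening r (Q u) ⊆ Q (u + r) := by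
  intro z hz
  obtain ⟨w, hw, hd⟩ := mem_thickening_iff.1 hz
  have h1 := (WithLp.dist_fst_le z w).trans hd.le
  have h2 := (WithLp.dist_snd_le z w).trans hd.le
  rw [Real.dist_eq, abs_le] at h1 h2
  rcases hw with hw | hw
  · left; linarith [h1.2]
  · right; linarith [h2.2]

lemma bdry_Q {u : ℝ} (hu : u < 0) :
    bdry (prod2 lap lap) (Q u) ≤ ENNReal.ofReal (Real.exp u * (1 - Real.exp u / 2)) := by
  have hd : HasDerivAt (fun x => 1 - (1 - Real.exp x / 2) ^ 2)
      (Real.exp u * (1 - Real.exp u / 2)) u := by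
    have := ((((Real.hasDerivAt_exp u).div_const 2).const_sub 1).fun_pow 2).const_sub 1
    refine this.congr_deriv ?_
    norm_num
    ring
  have h1 := (ENNReal.continuous_ofReal.tendsto _).comp hd.tendsto_slope_zero_right
  rw [← h1.liminf_eq]
  refine liminf_le_liminf ?_
  filter_upwards [Ioo_mem_nhdsGT (show (0:ℝ) < -u by linarith)] with r hr
  have h2 : prod2 lap lap (thickening r (Q u)) ≤ _ :=
    (measure_mono (Q_thick u r)).trans (Q_val (by linarith [hr.2])).le
  have he : Real.exp u ≤ 1 := Real.exp_le_one_iff.2 hu.le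
  have hp := Real.exp_pos u
  simp only [Function.comp, smul_eq_mul]
  rw [ENNReal.ofReal_mul (inv_nonneg.2 hr.1.le), ENNReal.ofReal_inv_of_pos hr.1,
    ENNReal.ofReal_sub _ (by nlinarith), Q_val hu.le, ENNReal.div_eq_inv_mul]
  gcongr

theorem result : ∃ μ : Measure ℝ, IsProbabilityMeasure μ ∧ LogConcave μ ∧ Symm μ ∧
    ∀ a : ℝ, 0 < a → a ≤ 1 / 4 →
      ratio (prod2 μ μ) a ^ 2 <
        ⨅ (a₁ : ℝ) (a₂ : ℝ) (_ : a₁ ∈ Ioc (0:ℝ) 1) (_ : a₂ ∈ Ioc (0:ℝ) 1) (_ : a₁ * a₂ = a),
          (ratio μ a₁ ^ 2 + ratio μ a₂ ^ 2) := by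
  refine ⟨lap, lap_prob, lap_lc, lap_symm, fun a ha ha4 => ?_⟩
  refine lt_of_lt_of_le (b := 1) ?_ ?_
  · refine pow_lt_one' ?_ (by norm_num)
    set s := Real.sqrt (1 - a) with hs
    have hs2 : s ^ 2 = 1 - a := Real.sq_sqrt (by linarith)
    have hs0 : 0 ≤ s := Real.sqrt_nonneg _
    have hs1 : s < 1 := by nlinarith
    have hs3 : 1 / 2 < s := by nlinarith
    set u := Real.log (2 * (1 - s)) with hu
    have heu : Real.exp u = 2 * (1 - s) := Real.exp_log (by linarith)
    have hu0 : u < 0 := Real.log_neg (by linarith) (by linarith)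
    have hQ : prod2 lap lap (Q u) = ENNReal.ofReal a := by
      rw [Q_val hu0.le, heu]; congr 1; nlinarith
    unfold ratio
    rw [ENNReal.div_lt_iff (Or.inl (by simpa using ha)) (Or.inl ENNReal.ofReal_ne_top), one_mul]
    have hle : profile (prod2 lap lap) a ≤ bdry (prod2 lap lap) (Q u) :=
      iInf_le_of_le (Q u) (iInf_le_of_le (Q_meas u) (iInf_le_of_le hQ le_rfl))
    refine lt_of_le_of_lt (hle.trans (bdry_Q hu0)) ?_
    rw [ENNReal.ofReal_lt_ofReal_iff ha, heu]
    nlinarith
  · refine le_iInf fun a₁ => le_iInf fun a₂ => le_iInf fun h₁ => le_iInf fun h₂ =>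
      le_iInf fun h => ?_
    by_cases h1 : a₁ ≤ 1 / 2
    · exact le_add_right (one_le_pow₀ (ratio_ge h₁.1 h1))
    · have h2 : a₂ ≤ 1 / 2 := by
        by_contra h2
        push Not at h1 h2
        nlinarith
      exact le_add_left (one_le_pow₀ (ratio_ge h₂.1 h2))

end Pool.Agent.Results.MP_662df3_gt.Counter
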